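import Pool.Agent.N876.HM1.Proof

/-!
# Motivic homology with compact support of products with cyclic coverings branched along hyperplanes

Let `κ` be a finite field with `q = c ^ f` elements, and `𝒱` a class of smooth projective varieties over
`κ`, closed under products, with Chow groups `A` with rational coefficients and a Weil cohomology theory
`H` (framework of helper492 and helper484: `TheoryData`, `IsChow`, `IsWeil`). Let `X_i` be varieties in
`𝒱`, of any dimensions `n_i`, which are models of cyclic coverings

  `w ^ N_i = ∏ l_{i,k} (x) ^ a_{i,k}`

of projective spaces, branched along hyperplanes `l_{i,k} = 0` over `κ`, with exponents prime to `N_i`,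
where `N_i` divides `q - 1` (`IsModel`, see the definitions: the cohomology is generated by the
classes of cycles and a part `T`, pure of weight `n_i`, without invariants under the covering
group, for which the trace formula holds). Let `N` be a common multiple of the `N_i`, and `λ` an
integer such that `IsSmall N λ` holds: for every nonempty finite set `I` of indices and all `j_i` not
divisible by `N_i` (`i ∈ I`) there is a `u` prime to `N` with
`∑_{i ∈ I} weight X_i (u j_i) + λ / 2 < ∑_{i ∈ I} (n_i / 2 + 1)`; here `weight X j` is the mean over the
orbit `j, c j, …, c ^ (f - 1) j` of the sum of the fractional parts of `j a_k / N_i`.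

Let `U` be **any** separated scheme of finite type over `κ`, of dimension `e` (for example a point), and `Z` a
variety in `𝒱`. Fix an integer `k`. For `X` in `𝒱` let `T^n(X) = CH_m(X × U, k) ⊗ ℚ` with
`m = dim X + e - n`; this is `H^c_{k + 2m}(X × U, ℚ(m))` (`homology T e X m` below), and `φ` the Frobenius
endomorphism of `U` on `T`. The group `H^c_{k + 2m}(X × U, ℤ(m))` is torsion if and only if this space is zero.
Correspondences between smooth projective varieties operate on these groups, and the product of `φ` and the
Frobenius endomorphism of `X` is `q ^ n` on `T^n(X)` (`IsRelative`). Let `χ` be a polynomial with rational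
coefficients which is satisfied by `φ`. We assume that the products `b` of the eigenvalues of the Frobenius on
`H(Z)` and the complex roots of `χ` are algebraic with `|b| ^ 2 = q ^ j` (theorem of Deligne) and that
* either `λ = 0` and the cyclotomic polynomial of order `N` is irreducible over the field generated by
  the numbers `b` (for given `Z` and `U` this is true for all `N` prime to the discriminant of this field),
* or `Z × U` is of level `≤ λ`: the numbers `q ^ λ b / b̄` are algebraic integers. This is true if
  `dim Z + dim U ≤ λ`.
Finally the homologically trivial self-correspondences of degree zero of the products `V` of `Z` and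
different `X_i` are assumed to be nilpotent (nothing of this kind is assumed for `U`); this holds if `Z` is
a point (or dominated by a product of curves) and the `X_i` are curves or have `n_i + 2` branch
hyperplanes in general position, by the theorem of Kimura and O'Sullivan.

**Theorem.** Let `V` be the product of `Z` and of finitely many of the `X_i` (pairwise different), and
`d = dim V - dim Z`. There are finitely many numbers `deg j ∈ [0, d]`, among them all integers in this
interval (the dimensions of the algebraic cycles on the `X_i`), such that **for all `U`, all `i` and all `m`
(also negative)**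

  `H^c_i(V × U, ℚ(m)) ≃ ⨁ j, H^c_{i - 2 deg j}(Z × U, ℚ(m - deg j))`.

So `H^c_i(V × U, ℤ(m))` is torsion if and only if the groups `H^c_{i - 2a}(Z × U, ℤ(m - a))` are torsion for
`0 ≤ a ≤ d`. For `U` a point: **`P_m` for `V` is equivalent to `P_l` for `Z`, `m - d ≤ l ≤ m`**, that is to
`P_m` for `ℙ^d × Z`; it is true for all `m` if `Z` is a point or a curve.

The hand-ins MP_27fd67_ag.HyperplaneCoverings (K-theory) and MP_de59b4_ag.HyperplaneCoverings (cohomology with
compact support) contain the equivalences for the cohomological groups, with nilpotence for all products,
repeated factors included; new here is the decomposition of the homology of `V × U` in all weights, with the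
same numbers `deg j` for all `U`, `i`, `m`, and nilpotence is only used for products of different `X_i`.

Examples. (a) Let `X_i` be curves `y ^ N_i = ∏ (x - x_{i,k})` with `N_i` factors, of genus
`(N_i - 1) (N_i - 2) / 2`, for different prime numbers `N_i` dividing `c - 1`. Then `weight X_i j` is the
residue of `j` modulo `N_i`, and `IsSmall N 0` holds for the product `N` of the `N_i` (take `u` with
`u j_i = 1` modulo `N_i`). (b) Let `X` be the variety `w ^ N = l_1 ⋯ l_N` of dimension `n = N - 2`, with
`N` hyperplanes in general position, for a prime number `N` dividing `c - 1` (the resolutions are
Calabi-Yau varieties). The weight for `u j = 1` is `1`, so `IsSmall N λ` holds for all `λ < n`: the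
theorem applies to **all schemes `U` of finite type of dimension smaller than `dim X`** with a
polynomial `χ`.

The proof: by the theorem of Stickelberger on Gauss sums and the product formula no product of
eigenvalues of the Frobenius on the parts `T` of several `X_i` and on the cohomology of `Z × U` is a
power of `q`. So the intersection pairing on the algebraic classes of `X_i` is not degenerate; let
`D j`, `E j` be dual systems of cycles on `X_i`. The eigenvalues of Frobenius and nilpotence give
`T (X_i × V') = ⨁ D j × T (V')` (the idea to play the eigenvalues of Frobenius off against nilpotence is due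
to Soulé, Geisser and Kahn).

helper876; built on the library of the starting files (estimates of sums over hyperplane
arrangements by Gauss sums: helper528 and helpers 800, 883, 135, 563, 271, 540, 400, 999, 782, 605,
346; traces on eigenspaces: helper117; correspondences, nilpotence and the Kunneth formula: helpers
484, 492, 550; the idea to work relative to a scheme: helper156).
-/

set_option autoImplicit false

open Polynomial CategoryTheory AlgebraicGeometry

namespace Pool.Agent.Results.MP_7923e9_ag.HyperplaneCoverings

open Pool.Agent.H914 Pool.Agent.H914.VarClass Pool.Agent.H914.VarClass.Obj Pool.Agent.W492.BB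
  Pool.Agent.W484.CK Pool.Agent.N876.HM1

/-- **Motivic homology with compact support of products with cyclic coverings branched along hyperplanes.** -/
theorem result (c : ℕ) [Fact c.Prime] (κ : Type) [Field κ] [Fintype κ] [CharP κ c] {ι : Type}
    (C : ι → Covering κ) (f N lam : ℕ) (hC : IsSmallSystem C c f N lam)
    {𝒱 : VarClass κ} (A : TheoryData.{0, 0, 0} 𝒱 ℚ) [IsChow A] {K : Type} [Field K]
    [IsAlgClosed K] [CharZero K] (H : WeilTheoryData.{0, 0, 0} A K) [IsWeil H] (τ : K →+* ℂ)
    (F : ∀ X : 𝒱.Obj, X ⟶ X) (X : ι → 𝒱.Obj) (Z : 𝒱.Obj) (χ : ℚ[X])
    (h : IsCoveringSystem C N lam H τ F X Z χ)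
    (hnil : ∀ L : List ι, L.Nodup → Nilpotence H (productOf X Z L))
    (L : List ι) (hL : L.Nodup) :
    ∃ (J : Type) (_ : Fintype J) (deg : J → ℕ), (∀ j, deg j ≤ dimension X L) ∧
      (∀ l ≤ dimension X L, ∃ j, deg j = l) ∧
      ∀ (T : MotivicData A) (φ : ∀ X, T.M X →ₗ[ℚ] T.M X),
        IsRelative T φ F (Fintype.card κ) χ → ∀ e : ℕ,
        Conclusions T e (productOf X Z L) Z (dimension X L) deg :=
  main c κ C f N lam hC A H τ F X Z χ h hnil L hL

end Pool.Agent.Results.MP_7923e9_ag.HyperplaneCoverings
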